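import Pool.Agent.H8.BIG.Targets
import Pool.Agent.H18.HIT.Basic
import Pool.Agent.H99.HIT.RTD

/-!
# Row MUL: the multiplicity of the image of a hypersurface
-/

set_option autoImplicit false

open MvPolynomial
open Pool.Agent.H12.ZD (pmap v O Res DenseOrbit NoInv)
open Pool.Agent.H18.HIT Pool.Agent.H8.BIG

namespace Pool.Agent.H29.BIG

/-- the value at a homomorphic image of a point -/
theorem eval_map_pt {R S : Type} [CommRing R] [CommRing S] (φ : R →+* S) {N : ℕ}
    (g : MvPolynomial (Fin N) R) (z : Fin N → R) :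
    eval (fun i => φ (z i)) (map φ g) = φ (eval z g) := by
  rw [eval_map, eval₂_comp]
  rfl

/-- the jacobian determinant and homomorphisms -/
theorem jac_map_hom {R S : Type} [CommRing R] [CommRing S] (φ : R →+* S) {N : ℕ}
    (f : Tup N R) : jac (fun i => map φ (f i) : Tup N S) = map φ (jac f) := by
  unfold jac
  rw [RingHom.map_det]
  congr 1
  ext i j
  simp only [Matrix.of_apply, RingHom.mapMatrix_apply, Matrix.map_apply, pderiv_map]

section series

variable {K : Type} [Field K]

/-- the first coefficient of a product which can be nonzero -/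
theorem coeff_mul_low (A B : PowerSeries K) (m : ℕ)
    (h : ∀ j, j < m → PowerSeries.coeff j A = 0) :
    PowerSeries.coeff m (A * B) = PowerSeries.coeff m A * PowerSeries.constantCoeff B := by
  rw [PowerSeries.coeff_mul, Finset.sum_eq_single (m, 0)]
  · simp
  · rintro ⟨i, j⟩ hij hne
    rw [Finset.HasAntidiagonal.mem_antidiagonal] at hij
    have hi : i < m := by
      by_contra hcon
      apply hne
      have h1 : i = m := by omega
      have h2 : j = 0 := by omega
      rw [h1, h2]
    rw [h i hi, zero_mul]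
  · intro hmem
    exact absurd (Finset.HasAntidiagonal.mem_antidiagonal.2 (add_zero m)) hmem

/-- the telescoping sum of the pencil -/
theorem pencil_sum {O : Type} [CommRing O] (S L ε : O) (f w : ℕ → O) (h : S = -(ε * L))
    (h0 : f 0 = S * w 0) (h1 : ∀ j, f (j + 1) = S * w (j + 1) + L * w j) (n : ℕ) :
    ∑ j ∈ Finset.range (n + 1), f j * ε ^ j = S * w n * ε ^ n := by
  induction n with
  | zero => rw [Finset.sum_range_one, h0, pow_zero]
  | succ n ih =>
    rw [Finset.sum_range_succ, ih, h1, h]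
    ring

/-- a polynomial with distinct roots in the maximal ideal -/
theorem dvd_eval_zero {E : ℕ} (ε : Fin E → PowerSeries K) (hinj : Function.Injective ε)
    (hX : ∀ a, PowerSeries.X ∣ ε a) (Q : Polynomial (PowerSeries K))
    (hQ : ∀ a, Q.eval (ε a) = 0) : PowerSeries.X ^ E ∣ Q.eval 0 := by
  classical
  rcases eq_or_ne Q 0 with h0 | h0
  · rw [h0, Polynomial.eval_zero]
    exact dvd_zero _
  have h1 : ((Finset.univ.val.map ε).map fun a => Polynomial.X - Polynomial.C a).prod ∣ Q := by
    rw [Multiset.prod_X_sub_C_dvd_iff_le_roots h0, Multiset.le_iff_subset]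
    · intro z hz
      obtain ⟨a, -, rfl⟩ := Multiset.mem_map.1 hz
      rw [Polynomial.mem_roots h0]
      exact hQ a
    · exact Finset.univ.nodup.map hinj
  rw [Multiset.map_map] at h1
  have h2 : (∏ a : Fin E, (Polynomial.X - Polynomial.C (ε a))) ∣ Q := h1
  obtain ⟨R, hR⟩ := h2
  rw [hR, Polynomial.eval_mul, Polynomial.eval_prod]
  refine Dvd.dvd.mul_right ?_ _
  have h3 : (PowerSeries.X : PowerSeries K) ^ E = ∏ _a : Fin E, PowerSeries.X := by
    rw [Finset.prod_const, Finset.card_univ, Fintype.card_fin]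
  rw [h3]
  refine Finset.prod_dvd_prod_of_dvd _ _ fun a _ => ?_
  rw [Polynomial.eval_sub, Polynomial.eval_X, Polynomial.eval_C, zero_sub]
  exact (hX a).neg_right

end series

/-- the constant coefficient of the value of a polynomial -/
theorem const_aeval {k K : Type} [Field k] [Field K] [Algebra k K] {N : ℕ}
    (z : Fin N → PowerSeries K) (x : Fin N → k)
    (hz : ∀ i, PowerSeries.constantCoeff (z i) = algebraMap k K (x i)) (q : Po N k) :
    PowerSeries.constantCoeff (aeval z q) = algebraMap k K (eval x q) := by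
  have h1 : (PowerSeries.constantCoeff (R := K)).comp
      ((aeval z : Po N k →ₐ[k] PowerSeries K) : Po N k →+* PowerSeries K) =
      (algebraMap k K).comp (eval x) := by
    refine MvPolynomial.ringHom_ext (fun c => ?_) fun i => ?_
    · simp only [RingHom.comp_apply, RingHom.coe_coe, algHom_C, eval_C]
      rfl
    · simp only [RingHom.comp_apply, RingHom.coe_coe, aeval_X, eval_X]
      exact hz i
  exact congrArg (fun f => f q) h1

/-- the core of the argument -/
theorem mul_core {k K : Type} [Field k] [Infinite k] [Field K] [Algebra k K] (hLA : T_LA) {N : ℕ}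
    (T : Tup N k) (S : Po N k) (E μ : ℕ) (x : Fin E → Fin N → k) (yl : Fin N → PowerSeries K)
    (hG : ∀ (q : Po N k) (E : ℕ), q.totalDegree < E → PowerSeries.X ^ E ∣ aeval yl q → q = 0)
    (z : Fin E → Fin N → PowerSeries K)
    (hz1 : ∀ a i, PowerSeries.constantCoeff (z a i) = algebraMap k K (x a i))
    (hz2 : ∀ a i, aeval (z a) (T i) = yl i) (hS : S ≠ 0) (hSx : ∀ a, eval (x a) S = 0)
    (hpen : ∀ ρ : Fin E → Fin E → k, ∃ L : Po N k, (∀ a, eval (x a) L ≠ 0) ∧
      (∀ a b, a ≠ b → eval (x a) L ≠ ρ a b * eval (x b) L) ∧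
      ∀ ε : k, ∃ Q : Po N k, Q ≠ 0 ∧ Q.totalDegree ≤ μ ∧ (S + C ε * L) ∣ aeval T Q) :
    E ≤ μ := by
  classical
  by_contra hlt
  push Not at hlt
  have hinj : Function.Injective (algebraMap k K) := (algebraMap k K).injective
  have hconst : ∀ a (q : Po N k), PowerSeries.constantCoeff (aeval (z a) q) =
      algebraMap k K (eval (x a) q) := fun a q => const_aeval (z a) (x a) (hz1 a) q
  have hcomp : ∀ a (q : Po N k), aeval (z a) (aeval T q) = aeval (yl) q := by
    intro a q
    rw [comp_aeval_apply]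
    have h1 : (fun i => aeval (z a) (T i)) = yl := funext fun i => hz2 a i
    rw [h1]
  have hGEN' : ∀ q : Po N k, q ≠ 0 → aeval (yl) q ≠ 0 := by
    intro q hq h
    exact hq (hG q (q.totalDegree + 1) (Nat.lt_succ_self _) (by rw [h]; exact dvd_zero _))
  -- the values of `S` are nonzero
  have hSne : ∀ a, aeval (z a) S ≠ 0 := by
    intro a h
    obtain ⟨L0, -, -, h1⟩ := hpen fun _ _ => 0
    obtain ⟨Q, hQ0, -, hdvd⟩ := h1 0
    rw [C_0, zero_mul, add_zero] at hdvd
    obtain ⟨W, hW⟩ := hdvd
    apply hGEN' Q hQ0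
    rw [← hcomp a, hW, map_mul, h, zero_mul]
  have hex : ∀ b, ∃ n, PowerSeries.coeff n (aeval (z b) S) ≠ 0 := by
    intro b
    by_contra hcon
    push Not at hcon
    exact hSne b (PowerSeries.ext fun n => by rw [hcon n, map_zero])
  obtain ⟨n, hn⟩ : ∃ n : Fin E → ℕ, ∀ b, n b = Nat.find (hex b) := ⟨_, fun _ => rfl⟩
  have hn1 : ∀ b, PowerSeries.coeff (n b) (aeval (z b) S) ≠ 0 := fun b => by
    rw [hn]; exact Nat.find_spec (hex b)
  have hn2 : ∀ b m, m < n b → PowerSeries.coeff m (aeval (z b) S) = 0 := fun b m hm => by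
    rw [hn] at hm
    exact not_not.1 (Nat.find_min (hex b) hm)
  obtain ⟨cf, hcf⟩ : ∃ cf : Fin E → Fin E → K, ∀ a b,
      cf a b = PowerSeries.coeff (n b) (aeval (z a) S) := ⟨_, fun _ _ => rfl⟩
  have hρex : ∀ a b, ∃ ρ : k, ∀ r : k, cf a b = algebraMap k (K) r * cf b b →
      cf a b = algebraMap k (K) ρ * cf b b := by
    intro a b
    by_cases h : ∃ r : k, cf a b = algebraMap k (K) r * cf b b
    · obtain ⟨r, hr⟩ := h
      exact ⟨r, fun _ _ => hr⟩
    · exact ⟨0, fun r hr => absurd ⟨r, hr⟩ h⟩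
  choose ρ hρ using hρex
  obtain ⟨L, hL1, hL2, hL3⟩ := hpen ρ
  have hunit : ∀ a, ∃ u : PowerSeries (K), aeval (z a) L * u = 1 := by
    intro a
    have h1 : IsUnit (aeval (z a) L) := by
      rw [PowerSeries.isUnit_iff_constantCoeff, hconst]
      exact IsUnit.mk0 _ fun h => hL1 a ((map_eq_zero_iff _ hinj).1 h)
    exact h1.exists_right_inv
  choose ui hui using hunit
  obtain ⟨ε, hε⟩ : ∃ ε : Fin E → PowerSeries (K), ∀ a, ε a = -(aeval (z a) S * ui a) :=
    ⟨_, fun _ => rfl⟩
  have hεL : ∀ a, aeval (z a) S = -(ε a * aeval (z a) L) := by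
    intro a
    rw [hε]
    linear_combination (-(aeval (z a) S)) * hui a
  have hεX : ∀ a, PowerSeries.X ∣ ε a := by
    intro a
    rw [hε]
    refine Dvd.dvd.neg_right (Dvd.dvd.mul_right ?_ _)
    rw [PowerSeries.X_dvd_iff, hconst, hSx a, map_zero]
  have hεinj : Function.Injective ε := by
    intro a b hab
    by_contra hne
    have h1 : aeval (z a) S * aeval (z b) L = aeval (z b) S * aeval (z a) L := by
      rw [hεL a, hεL b, hab]
      ring
    have h2 : ∀ m, m < n b → PowerSeries.coeff m (aeval (z a) S) = 0 := by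
      intro m
      induction m using Nat.strong_induction_on with
      | _ m ih =>
        intro hm
        have h3 := congrArg (PowerSeries.coeff m) h1
        rw [coeff_mul_low _ _ m fun j hj => ih j hj (hj.trans hm),
          coeff_mul_low _ _ m fun j hj => hn2 b j (hj.trans hm), hn2 b m hm, zero_mul,
          hconst] at h3
        rcases mul_eq_zero.1 h3 with h4 | h4
        · exact h4
        · exact absurd ((map_eq_zero_iff _ hinj).1 h4) (hL1 b)
    have h3 := congrArg (PowerSeries.coeff (n b)) h1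
    rw [coeff_mul_low _ _ _ h2, coeff_mul_low _ _ _ (hn2 b), hconst, hconst, ← hcf, ← hcf] at h3
    have hLb : algebraMap k (K) (eval (x b) L) ≠ 0 := fun h =>
      hL1 b ((map_eq_zero_iff _ hinj).1 h)
    have h4 : cf a b = algebraMap k (K) (eval (x a) L / eval (x b) L) * cf b b := by
      rw [map_div₀, div_mul_eq_mul_div, eq_div_iff hLb, h3, mul_comm]
    have h5 := hρ a b _ h4
    rw [h4] at h5
    have hcb : cf b b ≠ 0 := by
      rw [hcf]
      exact hn1 b
    have h6 := hinj (mul_right_cancel₀ hcb h5)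
    apply hL2 a b hne
    rw [← h6, div_mul_cancel₀ _ (hL1 b)]
  -- the pencil
  have hfin : ∀ t, Module.Finite k (restrictTotalDegree (Fin N) k t) := fun t =>
    (Pool.Agent.H99.HIT.pf_RTD N k t).1
  obtain ⟨ν, hν⟩ : ∃ ν : ℕ, ν = μ * deg T := ⟨_, rfl⟩
  obtain ⟨A, hA⟩ : ∃ A : (restrictTotalDegree (Fin N) k μ × restrictTotalDegree (Fin N) k ν) →ₗ[k]
      Po N k, ∀ w, A w = aeval T (w.1 : Po N k) - S * (w.2 : Po N k) := by
    refine ⟨(aeval T : Po N k →ₐ[k] Po N k).toLinearMap ∘ₗ
      (restrictTotalDegree (Fin N) k μ).subtype ∘ₗ LinearMap.fst k _ _ -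
      LinearMap.mulLeft k S ∘ₗ (restrictTotalDegree (Fin N) k ν).subtype ∘ₗ
        LinearMap.snd k _ _, fun w => rfl⟩
  obtain ⟨B, hB⟩ : ∃ B : (restrictTotalDegree (Fin N) k μ × restrictTotalDegree (Fin N) k ν) →ₗ[k]
      Po N k, ∀ w, B w = -(L * (w.2 : Po N k)) := by
    refine ⟨-(LinearMap.mulLeft k L ∘ₗ (restrictTotalDegree (Fin N) k ν).subtype ∘ₗ
      LinearMap.snd k _ _), fun w => rfl⟩
  obtain ⟨J, w, hw0, hwA, hwB, hwJ⟩ := hLA k
    (restrictTotalDegree (Fin N) k μ × restrictTotalDegree (Fin N) k ν) (Po N k) A B (by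
      intro e
      obtain ⟨Q, hQ0, hQd, W, hW⟩ := hL3 e
      have hE : 0 < E := by omega
      have hSe : S + C e * L ≠ 0 := by
        intro h
        have h1 := congrArg (eval (x ⟨0, hE⟩)) h
        rw [map_add, map_mul, eval_C, hSx, zero_add, map_zero] at h1
        rcases mul_eq_zero.1 h1 with h2 | h2
        · rw [h2, C_0, zero_mul, add_zero] at h
          exact hS h
        · exact hL1 _ h2
      have hWd : W.totalDegree ≤ ν := by
        rcases eq_or_ne W 0 with h0 | h0
        · rw [h0, totalDegree_zero]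
          exact Nat.zero_le _
        · have h1 := totalDegree_mul_of_isDomain hSe h0
          have h2 := totalDegree_aeval_le T (deg T) (totalDegree_le_deg T) Q
          rw [hW, h1] at h2
          have h3 : Q.totalDegree * deg T ≤ μ * deg T := Nat.mul_le_mul_right _ hQd
          omega
      refine ⟨(⟨Q, (mem_restrictTotalDegree _ _ _).2 hQd⟩,
        ⟨W, (mem_restrictTotalDegree _ _ _).2 hWd⟩), ?_, ?_⟩
      · intro h
        apply hQ0
        have h1 := congrArg (fun z : restrictTotalDegree (Fin N) k μ ×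
          restrictTotalDegree (Fin N) k ν => (z.1 : Po N k)) h
        exact h1
      · rw [hA, hB, hW, smul_eq_C_mul]
        ring)
  obtain ⟨Qs, hQs⟩ : ∃ Qs : ℕ → Po N k, ∀ j, Qs j = ((w j).1 : Po N k) := ⟨_, fun _ => rfl⟩
  obtain ⟨Ws, hWs⟩ : ∃ Ws : ℕ → Po N k, ∀ j, Ws j = ((w j).2 : Po N k) := ⟨_, fun _ => rfl⟩
  have hr0 : aeval T (Qs 0) = S * Ws 0 := by
    have h1 := hwA
    rw [hA, ← hQs, ← hWs] at h1
    exact sub_eq_zero.1 h1
  have hr1 : ∀ j, aeval T (Qs (j + 1)) = S * Ws (j + 1) + L * Ws j := by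
    intro j
    have h1 := hwB j
    rw [hA, hB, ← hQs, ← hWs, ← hWs] at h1
    linear_combination h1
  have hQ0 : Qs 0 ≠ 0 := by
    intro h
    rw [h, map_zero] at hr0
    have h1 : Ws 0 = 0 := by
      rcases mul_eq_zero.1 hr0.symm with h2 | h2
      · exact absurd h2 hS
      · exact h2
    apply hw0
    rw [hQs] at h
    rw [hWs] at h1
    exact Prod.ext (Subtype.ext h) (Subtype.ext h1)
  have hQ0d : (Qs 0).totalDegree ≤ μ := by
    rw [hQs]
    exact (mem_restrictTotalDegree _ _ _).1 (w 0).1.2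
  have hWJ : Ws J = 0 := by
    rw [hWs, hwJ J le_rfl]
    rfl
  -- the end
  obtain ⟨QQ, hQQ⟩ : ∃ QQ : Polynomial (PowerSeries (K)), QQ =
      ∑ j ∈ Finset.range (J + 1), Polynomial.C (aeval (yl) (Qs j)) * Polynomial.X ^ j :=
    ⟨_, rfl⟩
  have hroot : ∀ a, QQ.eval (ε a) = 0 := by
    intro a
    have h1 : QQ.eval (ε a) = ∑ j ∈ Finset.range (J + 1),
        aeval (z a) (aeval T (Qs j)) * ε a ^ j := by
      rw [hQQ, Polynomial.eval_finsetSum]
      refine Finset.sum_congr rfl fun j _ => ?_
      rw [Polynomial.eval_mul, Polynomial.eval_C, Polynomial.eval_pow, Polynomial.eval_X, hcomp]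
    rw [h1, pencil_sum (aeval (z a) S) (aeval (z a) L) (ε a)
      (fun j => aeval (z a) (aeval T (Qs j))) (fun j => aeval (z a) (Ws j)) (hεL a)
      (by rw [hr0, map_mul]) (fun j => by rw [hr1, map_add, map_mul, map_mul]) J, hWJ, map_zero,
      mul_zero, zero_mul]
  have hfinal := dvd_eval_zero ε hεinj hεX QQ hroot
  have h0 : QQ.eval 0 = aeval (yl) (Qs 0) := by
    rw [hQQ, Polynomial.eval_finsetSum, Finset.sum_range_succ']
    rw [Finset.sum_eq_zero]
    · rw [zero_add, pow_zero, mul_one, Polynomial.eval_C]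
    · intro j _
      rw [Polynomial.eval_mul, Polynomial.eval_pow, Polynomial.eval_X, zero_pow (Nat.succ_ne_zero j),
        mul_zero]
  rw [h0] at hfinal
  exact hQ0 (hG (Qs 0) E (lt_of_le_of_lt hQ0d hlt) hfinal)

theorem pf_MUL (hFCL : T_FCL) (hLA : T_LA) (hGEN : T_GEN) : T_MUL := by
  intro N k _ _ T S E μ x y hT hjac hS hSx hpen
  have hinj : Function.Injective (algebraMap k (KF N k)) := (algebraMap k (KF N k)).injective
  have hlift : ∀ a, ∃ z : Fin N → PowerSeries (KF N k),
      (∀ i, PowerSeries.constantCoeff (z i) = algebraMap k (KF N k) (x a i)) ∧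
      ∀ i, aeval z (T i) = line y i := by
    intro a
    obtain ⟨z, hz1, hz2⟩ := hFCL N (KF N k) (fun i => map (algebraMap k (KF N k)) (T i))
      (fun i => algebraMap k (KF N k) (x a i)) (line y) (by
        rw [jac_map_hom, eval_map_pt]
        intro h
        exact hjac a ((map_eq_zero_iff _ hinj).1 h)) (by
        intro i
        rw [eval_map_pt]
        have h1 : eval (x a) (T i) = y i := congrFun (hT a) i
        rw [h1]
        unfold line
        simp)
    refine ⟨z, hz1, fun i => ?_⟩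
    have h1 := hz2 i
    rwa [aeval_map_algebraMap] at h1
  choose z hz1 hz2 using hlift
  exact mul_core hLA T S E μ x (line y) (fun q E => hGEN N k y q E) z hz1 hz2 hS hSx hpen

end Pool.Agent.H29.BIG
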