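import Pool.Agent.H8.BIG.Targets

/-!
# Row LNA: linear polynomials with general values at finitely many points
-/

set_option autoImplicit false

open MvPolynomial
open Pool.Agent.H12.ZD (pmap v O Res DenseOrbit NoInv)
open Pool.Agent.H18.HIT Pool.Agent.H8.BIG

namespace Pool.Agent.H29.BIG

/-- the value at `x` of the linear polynomial with indeterminate coefficients -/
noncomputable def gl {N : ℕ} {k : Type} [Field k] (x : Fin N → k) :
    MvPolynomial (Option (Fin N)) k := X none + ∑ i, C (x i) * X (some i)

theorem eval_gl {N : ℕ} {k : Type} [Field k] (x : Fin N → k) (u : Option (Fin N) → k) :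
    eval u (gl x) = u none + ∑ i, x i * u (some i) := by
  unfold gl
  rw [map_add, eval_X, map_sum]
  congr 1
  refine Finset.sum_congr rfl fun i _ => ?_
  rw [map_mul, eval_C, eval_X]

theorem pf_LNA : T_LNA := by
  classical
  intro N k _ _ E x hx ρ
  obtain ⟨P, hP⟩ : ∃ P : MvPolynomial (Option (Fin N)) k, P = (∏ a, gl (x a)) *
      ∏ a, ∏ b, (if a = b then 1 else gl (x a) - C (ρ a b) * gl (x b)) := ⟨_, rfl⟩
  have h0 : P ≠ 0 := by
    rw [hP]
    refine mul_ne_zero (Finset.prod_ne_zero_iff.2 fun a _ h => ?_)
      (Finset.prod_ne_zero_iff.2 fun a _ => Finset.prod_ne_zero_iff.2 fun b _ => ?_)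
    · have h1 := congrArg (eval (fun o : Option (Fin N) => if o = none then (1 : k) else 0)) h
      rw [eval_gl, map_zero] at h1
      simp at h1
    · split_ifs with hab
      · exact one_ne_zero
      · intro h
        have h1 := congrArg (eval (fun o : Option (Fin N) => if o = none then (1 : k) else 0)) h
        rw [map_sub, map_mul, eval_gl, eval_gl, eval_C, map_zero] at h1
        simp only [reduceCtorEq, if_false, if_true, mul_zero, Finset.sum_const_zero, add_zero,
          mul_one] at h1
        have h2 : ρ a b = 1 := (sub_eq_zero.1 h1).symm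
        apply hx a b hab
        funext i
        have h3 := congrArg (eval (fun o : Option (Fin N) => if o = some i then (1 : k) else 0)) h
        rw [map_sub, map_mul, eval_gl, eval_gl, eval_C, map_zero, h2] at h3
        simp only [reduceCtorEq, if_false, Option.some.injEq, mul_ite, mul_one, mul_zero,
          Finset.sum_ite_eq', Finset.mem_univ, if_true, zero_add, one_mul] at h3
        exact sub_eq_zero.1 h3
  obtain ⟨u, hu⟩ : ∃ u : Option (Fin N) → k, eval u P ≠ 0 := by
    by_contra hcon
    push Not at hcon
    exact h0 (MvPolynomial.funext fun u => by rw [hcon u, map_zero])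
  rw [hP, map_mul, map_prod, map_prod] at hu
  have hu1 := left_ne_zero_of_mul hu
  have hu2 := right_ne_zero_of_mul hu
  rw [Finset.prod_ne_zero_iff] at hu1 hu2
  have hL : ∀ z : Fin N → k, eval z (C (u none) + ∑ i, C (u (some i)) * X i : Po N k) =
      eval u (gl z) := by
    intro z
    rw [eval_gl, map_add, eval_C, map_sum]
    congr 1
    refine Finset.sum_congr rfl fun i _ => ?_
    rw [map_mul, eval_C, eval_X, mul_comm]
  refine ⟨C (u none) + ∑ i, C (u (some i)) * X i, ?_, ?_, ?_⟩
  · refine (totalDegree_add _ _).trans (max_le ?_ ?_)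
    · rw [totalDegree_C]
      exact Nat.zero_le _
    · refine (totalDegree_finsetSum _ _).trans (Finset.sup_le fun i _ => ?_)
      refine (totalDegree_mul _ _).trans ?_
      rw [totalDegree_C, totalDegree_X]
  · intro a
    rw [hL]
    exact hu1 a (Finset.mem_univ a)
  · intro a b hab h
    have h1 := hu2 a (Finset.mem_univ a)
    rw [map_prod, Finset.prod_ne_zero_iff] at h1
    have h2 := h1 b (Finset.mem_univ b)
    rw [if_neg hab, map_sub, map_mul, eval_C] at h2
    apply h2
    rw [← hL, ← hL, h, sub_self]

end Pool.Agent.H29.BIG
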